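import Pool.Agent.Helper815.Stek.Main

/-!
Planar domains with infinitely many polynomial Steklov eigenfunctions are disks.
-/

set_option autoImplicit false

namespace Pool.Agent.Results.MP_bd8415_an.PolynomialEigenvalues

open MeasureTheory

/-- The Euclidean plane. -/
abbrev Plane : Type := EuclideanSpace ℝ (Fin 2)

/-- The function on the plane given by a real polynomial in two variables. -/
noncomputable def polyFun (P : MvPolynomial (Fin 2) ℝ) : Plane → ℝ :=
  fun y => MvPolynomial.eval (fun i => y i) P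

/-- `Ω` has a Lipschitz boundary: near each boundary point, in suitable Cartesian coordinates,
`Ω` is the region above the graph of a Lipschitz function. (Every bounded domain with `C^∞`
boundary is of this kind.) -/
def LipschitzBoundary (Ω : Set Plane) : Prop :=
  ∀ x ∈ frontier Ω, ∃ R : Plane ≃ₗᵢ[ℝ] Plane, ∃ r : ℝ, 0 < r ∧ ∃ f : ℝ → ℝ,
    (∃ K, LipschitzWith K f) ∧
      Ω ∩ Metric.ball x r = Metric.ball x r ∩ {y | f (R y 0) < R y 1}

/-- The polynomial `P` satisfies the Steklov problem on `Ω` with eigenvalue `σ` in the weak sense: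
`∫_Ω ∇P · ∇v = σ ∫_{∂Ω} P v ds` for all compactly supported `C^1` functions `v` on the plane. -/
def IsSteklov (Ω : Set Plane) (P : MvPolynomial (Fin 2) ℝ) (σ : ℝ) : Prop :=
  ∀ v : Plane → ℝ, ContDiff ℝ 1 v → HasCompactSupport v →
    ∫ y in Ω, inner ℝ (gradient (polyFun P) y) (gradient v y)
      = σ * ∫ y in frontier Ω, polyFun P y * v y ∂(Measure.hausdorffMeasure (1 : ℝ))

/-- A bounded planar domain with Lipschitz boundary which has infinitely many Steklov eigenvalues
with a nonconstant polynomial eigenfunction is a round disk. -/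
theorem result (Ω : Set Plane) (hopen : IsOpen Ω) (hconn : IsConnected Ω)
    (hbdd : Bornology.IsBounded Ω) (hlip : LipschitzBoundary Ω)
    (hinf : {σ : ℝ | ∃ P : MvPolynomial (Fin 2) ℝ, 0 < P.totalDegree ∧ IsSteklov Ω P σ}.Infinite) :
    ∃ (c : Plane) (r : ℝ), 0 < r ∧ Ω = Metric.ball c r := by
  obtain ⟨c, r, h⟩ := Pool.Agent.Helper815.Stek.steklov_inf Ω hopen hconn hbdd hlip hinf
  refine ⟨c, r, ?_, h⟩
  by_contra hr
  rw [Metric.ball_eq_empty.2 (not_lt.1 hr)] at h
  exact hconn.nonempty.ne_empty h

end Pool.Agent.Results.MP_bd8415_an.PolynomialEigenvalues
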