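import Mathlib
import Pool.Agent.Helper474.AnaR

/-!
Bounded planar Lipschitz domains all of whose Steklov eigenfunctions extend to polynomials are
disks.
-/

set_option autoImplicit false

namespace Pool.Agent.Results.MP_bd8415_an.PolynomialExtensions

/-- Let `Ω` be a bounded connected open subset of the plane with Lipschitz boundary. Suppose that the
polynomials that are (weak) Steklov eigenfunctions of `Ω` have traces spanning a dense subspace of
`L²` of the boundary (since the Steklov eigenfunctions form a Hilbert basis of that space, this says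
that every Steklov eigenfunction of `Ω` extends to a polynomial). Then `Ω` is an open disk. -/
theorem result :
  ∀ Ω : Set (EuclideanSpace ℝ (Fin 2)),
    IsOpen Ω → IsConnected Ω → Bornology.IsBounded Ω →
    (∀ x ∈ frontier Ω, ∃ R : EuclideanSpace ℝ (Fin 2) ≃ₗᵢ[ℝ] EuclideanSpace ℝ (Fin 2),
        ∃ r : ℝ, 0 < r ∧ ∃ f : ℝ → ℝ, (∃ K, LipschitzWith K f) ∧
          Ω ∩ Metric.ball x r = Metric.ball x r ∩ {y | f (R y 0) < R y 1}) →
    (∀ g : EuclideanSpace ℝ (Fin 2) → ℝ,
       MeasureTheory.MemLp g 2
         ((MeasureTheory.Measure.hausdorffMeasure (1 : ℝ)).restrict (frontier Ω)) →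
       ∀ ε : ℝ, 0 < ε →
         ∃ Q ∈ Submodule.span ℝ
             {P : MvPolynomial (Fin 2) ℝ | ∃ σ : ℝ,
               ∀ v : EuclideanSpace ℝ (Fin 2) → ℝ, ContDiff ℝ 1 v → HasCompactSupport v →
                 ∫ y in Ω, @inner ℝ _ _
                     (gradient (fun z => MvPolynomial.eval (fun i => z i) P) y)
                     (gradient v y)
                   = σ * ∫ y in frontier Ω, MvPolynomial.eval (fun i => y i) P * v y
                       ∂(MeasureTheory.Measure.hausdorffMeasure (1 : ℝ))},
           MeasureTheory.eLpNorm (fun y => g y - MvPolynomial.eval (fun i => y i) Q) 2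
               ((MeasureTheory.Measure.hausdorffMeasure (1 : ℝ)).restrict (frontier Ω))
             < ENNReal.ofReal ε) →
    ∃ c : EuclideanSpace ℝ (Fin 2), ∃ r : ℝ, 0 < r ∧ Ω = Metric.ball c r := by
  intro Ω hΩ hconn hb hc hdens
  obtain ⟨c, r, h⟩ := Pool.Agent.Helper474.steklov_main Ω hΩ hconn hb hc hdens
  refine ⟨c, r, ?_, h⟩
  by_contra hr
  have h1 : Ω = ∅ := by rw [h]; exact Metric.ball_eq_empty.2 (not_lt.1 hr)
  have h2 := hconn.nonempty
  rw [h1] at h2
  exact Set.not_nonempty_empty h2

end Pool.Agent.Results.MP_bd8415_an.PolynomialExtensions
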